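import Pool.Agent.helper88.GR.Spec

set_option autoImplicit false

open Complex Metric Set Filter Topology MeasureTheory
open MPS (om)
open PPS (pre TT fd)
open XPS (Df er dens tau)

noncomputable section

namespace GR

theorem TOP_grow (n : ℕ) (c : ℂ) (hn : 2 ≤ n) (hc : ‖c‖ ≤ 2) (z : ℂ) (hz : 4 ≤ ‖z‖) (j : ℕ) :
    4 ≤ ‖(fun z : ℂ => z ^ n + c)^[j] z‖ := by
  induction j with
  | zero => simpa using hz
  | succ j ih =>
    rw [Function.iterate_succ_apply']
    obtain ⟨u, hu⟩ : ∃ u, u = (fun z : ℂ => z ^ n + c)^[j] z := ⟨_, rfl⟩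
    rw [← hu] at ih ⊢
    show 4 ≤ ‖u ^ n + c‖
    have h1 : ‖u‖ ^ 2 ≤ ‖u‖ ^ n := pow_le_pow_right₀ (by linarith) hn
    have h2 : ‖u ^ n‖ - ‖c‖ ≤ ‖u ^ n + c‖ := by
      have := norm_sub_norm_le (u ^ n) (-c)
      simpa using this
    rw [norm_pow] at h2
    nlinarith

theorem TOP (hNAT : NAT_stmt) : TOP_stmt := by
  intro n c p q G hR hT
  obtain ⟨hf, hfd, hdeg, hZs, hZ0, hZ1, hA1, hS1, hAs, hSs, hRR⟩ := hNAT n c hR.hn
  obtain ⟨hR0, hR2, hX1, hRX, hAne, -⟩ := hRR p q hR
  have hZp : Z n c p ∈ ball (0 : ℂ) (R n c q) := by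
    rw [mem_ball_zero_iff]
    exact hR.lt
  have h1 : ∀ m < p, ∀ w ∈ ball (0 : ℂ) (R n c q), (fun z : ℂ => z ^ n + c)^[m] (G m w) = w := by
    intro m
    induction m with
    | zero => intro _ w _; simpa using hT.zero w
    | succ m ih =>
      intro hm w hw
      rw [Function.iterate_succ_apply]
      show (fun z : ℂ => z ^ n + c)^[m] (G (m + 1) w ^ n + c) = w
      rw [(hT.rel m hm w hw).1]
      exact ih (by omega) w hw
  have hder : ∀ m, m + 1 < p → ∀ w ∈ ball (0 : ℂ) (R n c q),
      (n : ℂ) * G (m + 1) w ^ (n - 1) * deriv (G (m + 1)) w = deriv (G m) w := by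
    intro m hm w hw
    have hd : DifferentiableAt ℂ (G (m + 1)) w :=
      (hT.diff (m + 1) hm).differentiableAt (isOpen_ball.mem_nhds hw)
    have he : (fun w => G (m + 1) w ^ n + c) =ᶠ[𝓝 w] G m := by
      filter_upwards [isOpen_ball.mem_nhds hw] with u hu
      exact (hT.rel m hm u hu).1
    rw [← he.deriv_eq]
    have h3 : HasDerivAt (fun w => G (m + 1) w ^ n + c)
        ((n : ℂ) * G (m + 1) w ^ (n - 1) * deriv (G (m + 1)) w) w :=
      (hd.hasDerivAt.pow n).add_const c
    exact h3.deriv.symm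
  have hid : G 0 = id := funext fun w => hT.zero w
  refine ⟨h1, ?_, ?_, ?_, ?_⟩
  · intro m hm w hw w' hw' he
    have h2 := h1 m hm w hw
    rw [he, h1 m hm w' hw'] at h2
    exact h2.symm
  · intro m hm w hw
    rw [mem_ball_zero_iff]
    by_contra hcon
    push Not at hcon
    have h2 := TOP_grow n c hR.hn hR.hc (G m w) hcon m
    rw [h1 m hm w hw] at h2
    rw [mem_ball_zero_iff] at hw
    linarith
  · intro m
    induction m with
    | zero =>
      intro _ w _
      rw [hid, deriv_id]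
      exact one_ne_zero
    | succ m ih =>
      intro hm w hw h0
      have h2 := hder m hm w hw
      rw [h0, mul_zero] at h2
      exact ih (by omega) w hw h2.symm
  · intro m
    induction m with
    | zero =>
      intro _
      rw [hid, deriv_id, Nat.sub_zero, div_self (hAne p (by have := hR.q1; have := hR.qp; omega) (by omega))]
    | succ m ih =>
      intro hm
      have h2 := hder m hm (Z n c p) hZp
      rw [ih (by omega), hT.val (m + 1) hm] at h2
      have h3 := hAs (p - (m + 1)) (by omega)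
      rw [show p - (m + 1) + 1 = p - m by omega] at h3
      rw [h3] at h2
      have h4 : (n : ℂ) * Z n c (p - (m + 1)) ^ (n - 1) ≠ 0 := by
        refine mul_ne_zero ?_ (pow_ne_zero _ (hR.ne0 _ (by omega) (by omega)))
        have := hR.hn
        exact_mod_cast (by omega : n ≠ 0)
      rw [mul_div_assoc] at h2
      exact mul_left_cancel₀ h4 h2

end GR
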